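import Mathlib

/-! FC2-ORB: orbit sums, general part. -/

set_option autoImplicit false

namespace Pool.Agent.Y484.FC2

open ComplexConjugate

variable {J : Type}

/-- the orbit -/
def oS (W : Subgroup ((J → ℤ) ≃ₗ[ℤ] (J → ℤ))) (μ : J → ℤ) : Set (J → ℤ) := {ν | ∃ w ∈ W, w μ = ν}

/-- the order of the stabilizer -/
noncomputable def st (W : Subgroup ((J → ℤ) ≃ₗ[ℤ] (J → ℤ))) (μ : J → ℤ) : ℕ :=
  Nat.card {w : W // (w : (J → ℤ) ≃ₗ[ℤ] (J → ℤ)) μ = μ}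

variable {W : Subgroup ((J → ℤ) ≃ₗ[ℤ] (J → ℤ))}

theorem oS_eq_range (μ : J → ℤ) : oS W μ = Set.range (fun w : W => (w : (J → ℤ) ≃ₗ[ℤ] (J → ℤ)) μ) := by
  ext ν
  constructor
  · rintro ⟨w, hw, h⟩
    exact ⟨⟨w, hw⟩, h⟩
  · rintro ⟨w, h⟩
    exact ⟨w, w.2, h⟩

theorem oS_finite (hW : Finite W) (μ : J → ℤ) : (oS W μ).Finite := by
  rw [oS_eq_range]
  exact Set.finite_range _

theorem mem_self (μ : J → ℤ) : μ ∈ oS W μ := ⟨1, W.one_mem, rfl⟩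

theorem inv_app (w : (J → ℤ) ≃ₗ[ℤ] (J → ℤ)) (μ : J → ℤ) : w⁻¹ (w μ) = μ := by
  change (w⁻¹ * w) μ = μ
  rw [inv_mul_cancel]
  rfl

theorem mem_symm {μ ν : J → ℤ} (h : ν ∈ oS W μ) : μ ∈ oS W ν := by
  obtain ⟨w, hw, rfl⟩ := h
  exact ⟨w⁻¹, W.inv_mem hw, inv_app w μ⟩

theorem mem_trans {μ ν κ : J → ℤ} (h : ν ∈ oS W μ) (h' : κ ∈ oS W ν) : κ ∈ oS W μ := by
  obtain ⟨w, hw, rfl⟩ := h
  obtain ⟨w', hw', rfl⟩ := h'
  exact ⟨w' * w, W.mul_mem hw' hw, rfl⟩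

theorem oS_eq {μ ν : J → ℤ} (h : ν ∈ oS W μ) : oS W ν = oS W μ := by
  ext κ
  exact ⟨fun h' => mem_trans h h', fun h' => mem_trans (mem_symm h) h'⟩

theorem st_pos (hW : Finite W) (μ : J → ℤ) : 0 < st W μ := by
  unfold st
  have : Nonempty {w : W // (w : (J → ℤ) ≃ₗ[ℤ] (J → ℤ)) μ = μ} := ⟨⟨1, rfl⟩⟩
  exact Nat.card_pos

theorem fib (μ : J → ℤ) (w0 : W) :
    Nat.card {w : W // (w : (J → ℤ) ≃ₗ[ℤ] (J → ℤ)) μ = (w0 : (J → ℤ) ≃ₗ[ℤ] (J → ℤ)) μ} =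
      st W μ := by
  unfold st
  refine Nat.card_congr
    { toFun := fun w => ⟨w0⁻¹ * w.1, ?_⟩
      invFun := fun w => ⟨w0 * w.1, ?_⟩
      left_inv := ?_
      right_inv := ?_ }
  · change (w0 : (J → ℤ) ≃ₗ[ℤ] (J → ℤ))⁻¹ ((w.1 : (J → ℤ) ≃ₗ[ℤ] (J → ℤ)) μ) = μ
    rw [w.2]
    exact inv_app _ _
  · change (w0 : (J → ℤ) ≃ₗ[ℤ] (J → ℤ)) ((w.1 : (J → ℤ) ≃ₗ[ℤ] (J → ℤ)) μ) = _
    rw [w.2]
  · intro w
    apply Subtype.ext
    simp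
  · intro w
    apply Subtype.ext
    simp

theorem sum_fib {M : Type} [AddCommMonoid M] [Fintype W] (μ : J → ℤ) (f : (J → ℤ) → M) :
    ∑ w : W, f ((w : (J → ℤ) ≃ₗ[ℤ] (J → ℤ)) μ) =
      st W μ • ∑ ν ∈ (oS_finite (inferInstance : Finite W) μ).toFinset, f ν := by
  classical
  have h1 := Finset.sum_comp (s := (Finset.univ : Finset W)) f
    (fun w : W => (w : (J → ℤ) ≃ₗ[ℤ] (J → ℤ)) μ)
  rw [h1, Finset.smul_sum]
  have h2 : (Finset.univ : Finset W).image (fun w : W => (w : (J → ℤ) ≃ₗ[ℤ] (J → ℤ)) μ) =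
      (oS_finite (inferInstance : Finite W) μ).toFinset := by
    ext ν
    rw [Finset.mem_image, Set.Finite.mem_toFinset, oS_eq_range]
    simp
  rw [h2]
  refine Finset.sum_congr rfl fun ν hν => ?_
  congr 1
  rw [Set.Finite.mem_toFinset, oS_eq_range] at hν
  obtain ⟨w0, rfl⟩ := hν
  rw [← fib μ w0, Nat.card_eq_fintype_card, Fintype.card_subtype]

theorem orb_card (hW : Finite W) (μ : J → ℤ) : (oS W μ).ncard * st W μ = Nat.card W := by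
  have := Fintype.ofFinite W
  have h1 := sum_fib (W := W) μ (fun _ => (1 : ℕ))
  rw [Finset.sum_const, Finset.sum_const, Finset.card_univ, smul_eq_mul, smul_eq_mul, mul_one,
    smul_eq_mul, mul_one] at h1
  rw [Nat.card_eq_fintype_card, h1, mul_comm, Set.ncard_eq_toFinset_card _ (oS_finite hW μ)]

theorem finsum_orb (hW : Finite W) (μ : J → ℤ) (f : (J → ℤ) → ℂ) :
    ∑ᶠ w : W, f ((w : (J → ℤ) ≃ₗ[ℤ] (J → ℤ)) μ) = (st W μ : ℂ) * ∑ᶠ ν ∈ oS W μ, f ν := by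
  have := Fintype.ofFinite W
  rw [finsum_eq_sum_of_fintype, sum_fib, finsum_mem_eq_finite_toFinset_sum _ (oS_finite hW μ),
    nsmul_eq_mul]

theorem inv_sum (hW : Finite W) (S : Finset (J → ℤ)) (c : (J → ℤ) → ℤ)
    (hS : ∀ w ∈ W, ∀ μ ∈ S, w μ ∈ S) (hc : ∀ w ∈ W, ∀ μ, c (w μ) = c μ) :
    ∃ R : Finset (J → ℤ), ∀ f : (J → ℤ) → ℂ,
      ∑ μ ∈ S, (c μ : ℂ) * f μ = ∑ μ ∈ R, (c μ : ℂ) * ∑ᶠ ν ∈ oS W μ, f ν := by
  classical
  let sel : Set (J → ℤ) → (J → ℤ) := fun s => if h : s.Nonempty then h.some else 0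
  have hsel : ∀ μ : J → ℤ, sel (oS W μ) ∈ oS W μ := by
    intro μ
    have h : (oS W μ).Nonempty := ⟨μ, mem_self μ⟩
    simp only [sel, dif_pos h]
    exact h.some_mem
  refine ⟨S.image fun μ => sel (oS W μ), fun f => ?_⟩
  rw [← Finset.sum_fiberwise_of_maps_to (s := S) (t := S.image fun μ => sel (oS W μ))
    (g := fun μ => sel (oS W μ)) (fun μ hμ => Finset.mem_image_of_mem _ hμ)]
  refine Finset.sum_congr rfl fun ρ hρ => ?_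
  obtain ⟨μ₀, hμ₀, rfl⟩ := Finset.mem_image.1 hρ
  have h0 : sel (oS W μ₀) ∈ oS W μ₀ := hsel μ₀
  have hcO : ∀ μ ν : J → ℤ, ν ∈ oS W μ → c ν = c μ := by
    rintro μ ν ⟨w, hw, rfl⟩
    exact hc w hw μ
  have hset : (S.filter fun μ => sel (oS W μ) = sel (oS W μ₀)) =
      (oS_finite hW (sel (oS W μ₀))).toFinset := by
    ext μ
    rw [Finset.mem_filter, Set.Finite.mem_toFinset]
    constructor
    · rintro ⟨_, h⟩
      rw [← h]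
      exact mem_symm (hsel μ)
    · intro h
      have h1 : μ ∈ oS W μ₀ := mem_trans h0 h
      refine ⟨?_, ?_⟩
      · obtain ⟨w, hw, rfl⟩ := h1
        exact hS w hw μ₀ hμ₀
      · rw [oS_eq h1]
  rw [hset, finsum_mem_eq_finite_toFinset_sum _ (oS_finite hW _), Finset.mul_sum]
  refine Finset.sum_congr rfl fun ν hν => ?_
  rw [Set.Finite.mem_toFinset] at hν
  rw [hcO _ _ hν]

theorem conj_sum (hW : Finite W) (d : (J → ℤ) →₀ ℤ) (hd : ∀ w ∈ W, ∀ μ, d (w μ) = d μ) :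
    ∃ (R : Finset (J → ℤ)) (b : (J → ℤ) → ℤ), ∀ f : (J → ℤ) → ℂ,
      (∀ μ, conj (f μ) = f (-μ)) →
      conj (d.sum fun n a => (a : ℂ) * f n) = ∑ μ ∈ R, (b μ : ℂ) * ∑ᶠ ν ∈ oS W μ, f ν := by
  classical
  obtain ⟨R, hR⟩ := inv_sum hW (d.support.image fun μ => -μ) (fun μ => d (-μ)) (by
    intro w hw μ hμ
    obtain ⟨ν, hν, rfl⟩ := Finset.mem_image.1 hμ
    refine Finset.mem_image.2 ⟨w ν, ?_, (map_neg w ν).symm⟩
    rw [Finsupp.mem_support_iff] at hν ⊢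
    rw [hd w hw]
    exact hν) (by
    intro w hw μ
    rw [← map_neg w μ, hd w hw])
  refine ⟨R, fun μ => d (-μ), fun f hf => ?_⟩
  rw [← hR f, Finset.sum_image (fun x _ y _ h => neg_injective h)]
  unfold Finsupp.sum
  rw [map_sum]
  refine Finset.sum_congr rfl fun μ _ => ?_
  rw [map_mul, hf, neg_neg]
  congr 1
  exact map_intCast (starRingEnd ℂ) _

end Pool.Agent.Y484.FC2
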