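import Pool.Agent.Y798.FC.Stm4
import Pool.Agent.Y484.FC2.OrbA

/-! FC2-ORB: orbit sums. -/

set_option autoImplicit false

namespace Pool.Agent.Y484.FC2

open UnitAddTorus Pool.Agent.Y798.FC Pool.Agent.Y139.ID ComplexConjugate

theorem t : StmOrb := by
  intro J _ W hW
  refine ⟨fun μ => oS_finite hW μ, fun μ => st_pos hW μ, fun μ => orb_card hW μ,
    fun μ x => finsum_orb hW μ (fun ν => mFourier ν x), fun d hd => ?_⟩
  obtain ⟨R, b, h⟩ := conj_sum hW d hd
  exact ⟨R, b, fun x => h (fun ν => mFourier ν x) fun μ => mFourier_neg.symm⟩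

end Pool.Agent.Y484.FC2
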